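import Pool.Agent.LibPartitionMedian.Poly

namespace Pool.Agent.Results.MP_3853ed_lc.NPHard

open Pool.Agent.LibPartitionMedian Pool.Agent.LibComplexity

/-- The lists of labels define partitions of `{0, ..., n-1}`. -/
def Valid (n : ℕ) (Ls : List (List ℕ)) : Prop := ∀ l ∈ Ls, l.length = n

/-- Every one of the partitions has at most two classes with more than one element. -/
def TwoBig (n : ℕ) (Ls : List (List ℕ)) : Prop := ∀ l ∈ Ls, AtMostTwoBig (lab n l)

/-- The partition median problem as a decision problem: given `n`, a list of partitions of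
`{0, ..., n-1}` and a number `t`, is there a partition with total distance at most `t`? -/
def PartitionMedian : Set (List Bool) :=
  {w | ∃ (n : ℕ) (Ls : List (List ℕ)) (t : ℕ), w = word (n, Ls, t) ∧ Valid n Ls ∧
    ∃ Y : Setoid (Fin n), total (Ls.map (lab n)) Y ≤ t}

/-- The restriction to partitions with at most two classes with more than one element. -/
def PartitionMedianTwo : Set (List Bool) :=
  {w | ∃ (n : ℕ) (Ls : List (List ℕ)) (t : ℕ), w = word (n, Ls, t) ∧ Valid n Ls ∧ TwoBig n Ls ∧
    ∃ Y : Setoid (Fin n), total (Ls.map (lab n)) Y ≤ t}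

/-- `f` solves the optimization problem: given `n` and a list of partitions of `{0, ..., n-1}`,
each with at most two classes with more than one element, it gives a partition that minimizes the
total distance. -/
def Solves (f : List Bool → List Bool) : Prop :=
  ∀ (n : ℕ) (Ls : List (List ℕ)), Valid n Ls → TwoBig n Ls →
    ∃ Y : List ℕ, Y.length = n ∧ f (word (n, Ls)) = word Y ∧
      ∀ Z : Setoid (Fin n), total (Ls.map (lab n)) (lab n Y) ≤ total (Ls.map (lab n)) Z

/-- the reduction of a formula -/
noncomputable def red (φ : CNF Vr) : List Bool :=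
  if 2 * φ.length ≤ botVal ((occ φ).length + 1) (edges φ) then
    word (4 * (edges φ).length, instL ((occ φ).length + 1) (edges φ),
      botVal ((occ φ).length + 1) (edges φ) - 2 * φ.length)
  else []

theorem occ_pos {φ : CNF Vr} (h : ∃ l l' φ', φ = [l] :: [l'] :: φ') :
    2 ≤ φ.length ∧ 1 ≤ (occ φ).length := by
  obtain ⟨l, l', φ', rfl⟩ := h
  constructor
  · simp
  · have : ((0 : ℕ), l) ∈ occ ([l] :: [l'] :: φ') := by
      rw [mem_occ]
      simp
    exact List.length_pos_of_mem this

theorem sat_iff_cost {φ : CNF Vr} (h : ∃ l l' φ', φ = [l] :: [l'] :: φ') :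
    Sat φ ↔ ∃ Y : Setoid (Fin (4 * (edges φ).length)),
      total ((instL ((occ φ).length + 1) (edges φ)).map (lab (4 * (edges φ).length))) Y +
        2 * φ.length ≤ botVal ((occ φ).length + 1) (edges φ) := by
  obtain ⟨h1, h2⟩ := occ_pos h
  have hne := nonempty_edges φ h2
  rw [sat_iff φ h1 h2, median_iff (ea φ) (eb φ) (ea_ne_eb φ) (hdeg φ h2)]
  have hbot := cost_bot_eq (N := (occ φ).length + 1) (es := edges φ) edges_fst edges_snd
    (ea_ne_eb φ) (hdeg φ h2)
  rw [hbot]
  constructor
  · rintro ⟨Y, hY⟩
    refine ⟨Y.comap (psi (edges φ).length).symm, ?_⟩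
    rw [total_instL edges_fst edges_snd (ea_ne_eb φ)]
    have : (Y.comap (psi (edges φ).length).symm).comap (psi (edges φ).length) = Y :=
      (comapIso (psi (edges φ).length)).right_inv Y
    rw [this]
    exact hY
  · rintro ⟨Y, hY⟩
    rw [total_instL edges_fst edges_snd (ea_ne_eb φ)] at hY
    exact ⟨_, hY⟩

theorem red_iff {φ : CNF Vr} (h : ∃ l l' φ', φ = [l] :: [l'] :: φ') :
    (Sat φ ↔ red φ ∈ PartitionMedian) ∧ (Sat φ ↔ red φ ∈ PartitionMedianTwo) := by
  rw [sat_iff_cost h]
  have key : (∃ Y : Setoid (Fin (4 * (edges φ).length)),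
      total ((instL ((occ φ).length + 1) (edges φ)).map (lab (4 * (edges φ).length))) Y +
        2 * φ.length ≤ botVal ((occ φ).length + 1) (edges φ)) → red φ ∈ PartitionMedianTwo := by
    rintro ⟨Y, hY⟩
    unfold red
    rw [if_pos (by omega)]
    exact ⟨_, _, _, rfl, length_instL _ _, big_instL _ _, Y, by omega⟩
  have key2 : red φ ∈ PartitionMedian → ∃ Y : Setoid (Fin (4 * (edges φ).length)),
      total ((instL ((occ φ).length + 1) (edges φ)).map (lab (4 * (edges φ).length))) Y +
        2 * φ.length ≤ botVal ((occ φ).length + 1) (edges φ) := by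
    rintro ⟨n, Ls, t, hw, -, Y, hY⟩
    unfold red at hw
    split_ifs at hw with hle
    · have h1 := word_injective hw
      simp only [Prod.mk.injEq] at h1
      obtain ⟨rfl, rfl, rfl⟩ := h1
      exact ⟨Y, by omega⟩
    · exact absurd hw.symm (word_ne_nil _)
  have key3 : red φ ∈ PartitionMedianTwo → red φ ∈ PartitionMedian := by
    rintro ⟨n, Ls, t, hw, h1, -, h2⟩
    exact ⟨n, Ls, t, hw, h1, h2⟩
  exact ⟨⟨fun h => key3 (key h), key2⟩, ⟨key, fun h => key2 (key3 h)⟩⟩

theorem ptf_red {𝒜 : Set Orc} : PTf 𝒜 (fun _ φ => red φ) := by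
  unfold red
  with_reducible
    apply PTf.ifP; apply PTf.decide_le; apply PTf.mul; apply PTf.const; apply PTf.length
    apply PTf.id; apply pt_botVal; apply PTf.add; apply PTf.length; apply pt_occ; apply PTf.id
    apply PTf.const; apply pt_edges; apply PTf.id; apply PTf.word; apply PTf.pair; apply PTf.mul
    apply PTf.const; apply PTf.length; apply pt_edges; apply PTf.id; apply PTf.pair
    apply pt_instL; apply PTf.add; apply PTf.length; apply pt_occ; apply PTf.id; apply PTf.const
    apply pt_edges; apply PTf.id; apply PTf.sub; apply pt_botVal; apply PTf.add; apply PTf.length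
    apply pt_occ; apply PTf.id; apply PTf.const; apply pt_edges; apply PTf.id; apply PTf.mul
    apply PTf.const; apply PTf.length; apply PTf.id; apply PTf.const

/-- The partition median problem is NP-hard, even if every one of the given partitions has at
most two classes with more than one element: every language in `NP` is reducible to the decision
problem by a polynomial-time many-one reduction, and if the optimization problem is solvable in
polynomial time, then `P = NP`. -/
theorem result :
    (∀ L, InNP ∅ L → PolyRed L PartitionMedian ∧ PolyRed L PartitionMedianTwo) ∧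
    ((∃ f, InFP ∅ f ∧ Solves f) → ∀ L, InNP ∅ L → InP ∅ L) := by
  constructor
  · intro L hL
    obtain ⟨F, hF, hshape, hFL⟩ := cook_levin hL
    have h1 : InFP ∅ (fun x => red (F x)) :=
      inFP_of_PTf (A := ∅) (f := fun _ x => red (F x)) (ptf_red.comp (hF {∅}))
    exact ⟨⟨_, h1, fun w => (hFL w).trans (red_iff (hshape w)).1⟩,
      ⟨_, h1, fun w => (hFL w).trans (red_iff (hshape w)).2⟩⟩
  · rintro ⟨f, hf, hsol⟩ L hL
    obtain ⟨F, hF, hshape, hFL⟩ := cook_levin hL
    have hex : ∀ x : List Bool, ∃ Y : List ℕ,
        f (word (4 * (edges (F x)).length, instL ((occ (F x)).length + 1) (edges (F x)))) = word Y ∧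
        ∀ Z : Setoid (Fin (4 * (edges (F x)).length)),
          total ((instL ((occ (F x)).length + 1) (edges (F x))).map
            (lab (4 * (edges (F x)).length))) (lab (4 * (edges (F x)).length) Y) ≤
          total ((instL ((occ (F x)).length + 1) (edges (F x))).map
            (lab (4 * (edges (F x)).length))) Z := by
      intro x
      obtain ⟨Y, -, h1, h2⟩ := hsol (4 * (edges (F x)).length)
        (instL ((occ (F x)).length + 1) (edges (F x))) (length_instL _ _) (big_instL _ _)
      exact ⟨Y, h1, h2⟩
    choose Y hY1 hY2 using hex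
    have hF' : PTf {∅} (fun _ x => F x) := hF {∅}
    have hq : PTf {∅} (fun _ (x : List Bool) =>
        word (4 * (edges (F x)).length, instL ((occ (F x)).length + 1) (edges (F x)))) := by
      with_reducible
        apply PTf.word; apply PTf.pair; apply PTf.mul; apply PTf.const; apply PTf.length
        apply pt_edges; assumption; apply pt_instL; apply PTf.add; apply PTf.length; apply pt_occ
        assumption; apply PTf.const; apply pt_edges; assumption
    have hY : PTf {∅} (fun _ x => Y x) :=
      (PTf.applyFP hf hq).ofWord fun _ _ x => (hY1 x).symm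
    have hdec : PTf {∅} (fun _ (x : List Bool) => decide ((F x).length + cntE (edges (F x)) (Y x) ≤
        cntU ((occ (F x)).length + 1) (edges (F x)) (Y x))) := by
      with_reducible
        apply PTf.decide_le; apply PTf.add; apply PTf.length; assumption; apply pt_cntE
        apply pt_edges; assumption; assumption; apply pt_cntU; apply PTf.add; apply PTf.length
        apply pt_occ; assumption; apply PTf.const; apply pt_edges; assumption; assumption
    rw [inP_iff]
    refine ⟨_, hdec, fun x => ?_⟩
    obtain ⟨h1, h2⟩ := occ_pos (hshape x)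
    have hne := nonempty_edges (F x) h2
    rw [decide_eq_true_eq, hFL x, sat_iff (F x) h1 h2]
    exact (opt_iff edges_fst edges_snd (ea_ne_eb (F x)) (hdeg (F x) h2) (Y x) (hY2 x) _).symm

end Pool.Agent.Results.MP_3853ed_lc.NPHard
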